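import Mathlib
import Pool.Agent.Q63.PC.Defs

/-!
# Abelian coverings of the products `P^1 × C`: definitions
-/

set_option autoImplicit false

namespace Pool.Agent.Q63.RC

open Pool.Agent.Q63.PC

/-- `X` is (a desingularisation of) an abelian covering, with the group `G`, of `P^1 × C` over `ℂ`, where `C` is a
curve of genus `g`, branched over smooth curves `D_i` whose union has normal crossings; `D_i` belongs to a line
bundle `O(d i) ⊠ N_i` with `deg N_i = e i`. `G` is a quotient of `(ℤ/m)^s`, where the generators are the canonical
generators of the inertia groups of the `D_i` and the generators of `H_1(C)`; for the latter ones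
`d i = e i = 0`. `Λ` is the group of the characters of `G`, as a subgroup of `(ℤ/m)^s`. `V` is the tensor product
with `ℂ` of the kernel of the Albanese map on the zero-cycles of degree zero of `X`, `W = H^{2,0}(X)`. -/
structure ProductCover {m s : ℕ} [NeZero m] (g : ℕ) (d e : Fin s → ℕ) (Λ : AddSubgroup (Fin s → ZMod m))
    (ψ : AddChar (ZMod m) ℂ) {V W : Type} [AddCommGroup V] [Module ℂ V] [AddCommGroup W] [Module ℂ W]
    (ρ : Representation ℂ (Multiplicative (Fin s → ZMod m)) V)
    (τ : Representation ℂ (Multiplicative (Fin s → ZMod m)) W) : Prop where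
  /-- only characters of `G` occur -/
  characters : ∀ (a : Fin s → ZMod m) (v : V), v ≠ 0 → Eigen ψ ρ a v → a ∈ Λ
  /-- the bidegrees of the line bundles `L_a` are integers -/
  integral : ∀ a ∈ Λ, ∑ i, a i * (d i : ZMod m) = 0 ∧ ∑ i, a i * (e i : ZMod m) = 0
  /-- `H^{2,0}(X)_a = H^0(K + L_a)` has the dimension `(α - 1) h^0(C, K_C + M)`, where `α ≥ 1` is the degree of
  `L_a` on `P^1` and `M` its restriction to `C`; by Riemann-Roch it is not zero if `α ≥ 2` and
  `deg M + g ≥ 2` -/
  forms : ∀ a ∈ Λ, 2 * m ≤ num d a → 2 * m ≤ num e a + g * m → ∃ w : W, w ≠ 0 ∧ Eigen ψ τ a w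
  /-- If the fibres of `X / ker a` over `C` are coverings of `P^1` branched over at most two points, then
  they are rational and the Albanese kernel is zero. -/
  ruled : ∀ a ∈ Λ, branch d a ≤ 2 → ∀ v, KerFixed ρ a v → v = 0
  /-- `C = P^1`, and one of the two projections of `X / ker a` to `P^1` has as fibres coverings of `P^1` branched
  over at most three points: `X / ker a` is dominated by a product of curves (Kimura). -/
  fibred : g = 0 → ∀ a ∈ Λ, branch d a ≤ 3 ∨ branch e a ≤ 3 →
    (∀ n : ℕ, ¬(2 * m ≤ num d (n • a) ∧ 2 * m ≤ num e (n • a))) → ∀ v, KerFixed ρ a v → v = 0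
  /-- `g = 1` and the branch curve of `X / ker a` consists of fibres of the first projection: `X / ker a` is
  dominated by a product of curves, so the part of its motive for the characters `u a`, `u` a unit, is
  finite-dimensional, and it contributes nothing to the Albanese kernel if it contributes nothing to
  `H^{2,0}`. -/
  product : g = 1 → ∀ a ∈ Λ, branch e a = 0 →
    (∀ (u : (ZMod m)ˣ) (w : W), Eigen ψ τ (fun i => (u : ZMod m) * a i) w → w = 0) →
    ∀ v, Eigen ψ ρ a v → v = 0

end Pool.Agent.Q63.RC
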