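import Mathlib
import Pool.Agent.Q63.RC.Defs
import Pool.Agent.Q63.PC.Gen
import Pool.Agent.Q63.QC.Main

set_option autoImplicit false

namespace Pool.Agent.Q63.RC

open Multiplicative Pool.Agent.Q63.PC Pool.Agent.Q63.KU Pool.Agent.Q63.QC

variable {m s : ℕ} [NeZero m] {g : ℕ} {d e : Fin s → ℕ} {Λ : AddSubgroup (Fin s → ZMod m)}
  {ψ : AddChar (ZMod m) ℂ} {V W : Type} [AddCommGroup V] [Module ℂ V] [AddCommGroup W] [Module ℂ W]
  {ρ : Representation ℂ (Multiplicative (Fin s → ZMod m)) V}
  {τ : Representation ℂ (Multiplicative (Fin s → ZMod m)) W}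

omit [NeZero m] in
lemma num_pos {f : Fin s → ℕ} {b : Fin s → ZMod m} (h : branch f b ≠ 0) : 0 < num f b := by
  unfold branch at h
  obtain ⟨i, hi, hne⟩ := Finset.exists_ne_zero_of_sum_ne_zero h
  simp only [Finset.mem_filter, Finset.mem_univ, true_and] at hi
  unfold num
  refine Finset.sum_pos' (fun i _ => Nat.zero_le _) ⟨i, Finset.mem_univ i, ?_⟩
  exact Nat.mul_pos (Nat.pos_of_ne_zero hne) (Nat.pos_of_ne_zero fun h => hi ((ZMod.val_eq_zero _).1 h))

lemma le_of_lt {f : Fin s → ℕ} {b : Fin s → ZMod m} (hb : ∑ i, b i * (f i : ZMod m) = 0)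
    (hlt : num f b < 2 * m) : num f b ≤ m := by
  obtain ⟨t, ht⟩ := dvd_num hb
  have h2 : t < 2 := by
    by_contra hcon
    have : m * 2 ≤ m * t := Nat.mul_le_mul_left m (by omega)
    omega
  rw [ht]
  calc m * t ≤ m * 1 := Nat.mul_le_mul_left m (by omega)
    _ = m := mul_one m

theorem eigen_eq_zero (hX : ProductCover g d e Λ ψ ρ τ) (hg : 1 ≤ g ∨ m.Prime) (a : Fin s → ZMod m)
    (v : V) (hv : Eigen ψ ρ a v)
    (hW : ∀ (u : (ZMod m)ˣ) (w : W), Eigen ψ τ (fun i => (u : ZMod m) * a i) w → w = 0) : v = 0 := by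
  by_contra h0
  have hm : 0 < m := Nat.pos_of_ne_zero (NeZero.ne m)
  have ha := hX.characters a v h0 hv
  have hmem : ∀ u : ZMod m, (fun i => u * a i) ∈ Λ := by
    intro u
    have : (fun i => u * a i) = u.val • a := by
      funext i
      rw [Pi.smul_apply, nsmul_eq_mul, ZMod.natCast_zmod_val]
    rw [this]
    exact Λ.nsmul_mem ha _
  have hno : ∀ u : (ZMod m)ˣ, ¬ (2 * m ≤ num d (fun i => (u : ZMod m) * a i) ∧
      2 * m ≤ num e (fun i => (u : ZMod m) * a i) + g * m) := by
    rintro u ⟨h1, h2⟩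
    obtain ⟨w, hw0, hw⟩ := hX.forms _ (hmem u) h1 h2
    exact hw0 (hW u w hw)
  have hneg : (fun i => (((-1 : (ZMod m)ˣ) : ZMod m)) * a i) = -a := by
    funext i
    simp
  have hone : (fun i => (((1 : (ZMod m)ˣ) : ZMod m)) * a i) = a := by
    funext i
    simp
  -- the ruled case
  have hruled : (∀ u : (ZMod m)ˣ, 2 * m ≤ num e (fun i => (u : ZMod m) * a i) + g * m) → False := by
    intro h
    have h1 : num d a < 2 * m := by
      by_contra hcon
      have := hno 1
      have h2 := h 1
      rw [hone] at this h2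
      exact this ⟨by omega, h2⟩
    have h1' : num d (-a) < 2 * m := by
      by_contra hcon
      have := hno (-1)
      have h2 := h (-1)
      rw [hneg] at this h2
      exact this ⟨by omega, h2⟩
    have h3 := le_of_lt (hX.integral a ha).1 h1
    have h4 := le_of_lt (hX.integral (-a) (Λ.neg_mem ha)).1 h1'
    have h5 := num_add_neg (d := d) a
    have h6 : branch d a ≤ 2 := by
      have : branch d a * m ≤ 2 * m := by omega
      exact Nat.le_of_mul_le_mul_right this hm
    exact h0 (hX.ruled a ha h6 v hv.kerFixed)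
  rcases Nat.eq_zero_or_pos g with hg0 | hgpos
  · -- `C = P^1`
    have hp : m.Prime := by
      rcases hg with h | h
      · omega
      · exact h
    have : Fact m.Prime := ⟨hp⟩
    have hall : ∀ n : ℕ, ¬(2 * m ≤ num d (n • a) ∧ 2 * m ≤ num e (n • a)) := by
      intro n
      by_cases hn : (n : ZMod m) = 0
      · have : n • a = 0 := by
          funext i
          rw [Pi.smul_apply, nsmul_eq_mul, hn, zero_mul, Pi.zero_apply]
        rw [this]
        have : num d (0 : Fin s → ZMod m) = 0 := by simp [num]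
        omega
      · have h1 := hno (Units.mk0 _ hn)
        have : (fun i => ((Units.mk0 _ hn : (ZMod m)ˣ) : ZMod m) * a i) = n • a := by
          funext i
          rw [Pi.smul_apply, nsmul_eq_mul, Units.val_mk0]
        rw [this, hg0, zero_mul, add_zero] at h1
        exact h1
    have hsmall := small (d := d) (e := e) (Λ := AddSubgroup.zmultiples a)
      (fun b hb => hX.integral b ((AddSubgroup.zmultiples_le.2 ha) hb))
      (fun b hb => by
        obtain ⟨z, rfl⟩ := AddSubgroup.mem_zmultiples_iff.1 hb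
        have h1 := hall ((z : ZMod m).val)
        have : (z : ZMod m).val • a = z • a := by
          funext i
          rw [Pi.smul_apply, Pi.smul_apply, nsmul_eq_mul, zsmul_eq_mul, ZMod.natCast_zmod_val]
        rw [this] at h1
        exact h1)
      (AddSubgroup.mem_zmultiples a)
    exact h0 (hX.fibred hg0 a ha hsmall hall v hv.kerFixed)
  · by_cases hg1 : g = 1
    · by_cases hbe : branch e a = 0
      · exact h0 (hX.product hg1 a ha hbe hW v hv)
      · refine hruled fun u => ?_
        have h1 : branch e (fun i => (u : ZMod m) * a i) ≠ 0 := by rwa [branch_unit]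
        have h2 := num_pos h1
        obtain ⟨t, ht⟩ := dvd_num (hX.integral _ (hmem u)).2
        have h3 : t ≠ 0 := by
          rintro rfl
          omega
        rw [ht, hg1, one_mul]
        have : m * 1 ≤ m * t := Nat.mul_le_mul_left m (by omega)
        omega
    · refine hruled fun u => ?_
      have : 2 * m ≤ g * m := Nat.mul_le_mul_right m (by omega)
      omega

theorem groupRing (hψ : ψ.IsPrimitive) (hX : ProductCover g d e Λ ψ ρ τ) (hg : 1 ≤ g ∨ m.Prime)
    (c : (Fin s → ZMod m) → ℚ) (hc : ∀ w : W, ∑ h, (c h : ℂ) • τ (ofAdd h) w = 0) (v : V) :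
    ∑ h, (c h : ℂ) • ρ (ofAdd h) v = 0 :=
  groupRing_gen hψ (fun a v hv hW => eigen_eq_zero hX hg a v hv hW) c hc v

end Pool.Agent.Q63.RC
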